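import Pool.Agent.X192.ML.Top2

/-!
# Every convex body in space has a lattice packing of density at least `√5/9 > 0.2484`

`dL`, `dT` are the suprema of the densities of the lattice packings and of the packings by
translates, `mn` is the minimum over all convex bodies (`Body`), see `Pool.Agent.TH219.DL.Defs`.

Proof: after a linear change of coordinates the least ellipsoid containing `K - K` is the unit ball.
One of its contact points `e` carries a weight at least `1/2` in John's decomposition. So every
quadratic form `q` on the plane orthogonal to `e` has a value at least `(2/5) tr q` on the
projection of `K - K`, and every ellipse containing this projection has area at least `4π/5`.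
Fáry's lattice for the shadow of `K` comes with a hexagon containing the difference body of the
shadow; the ellipse through its vertices gives a lower bound for the determinant of the lattice,
which is sharp exactly when the density `2/3` of Fáry's packing is sharp. By Kershner's inequality
the lattice has a deep hole, of square distance at least `1/5` from the lattice if the density is
`2/3`. The columns are stacked over Fáry's lattice and the next layer is shifted horizontally to
the deep hole.
-/

set_option autoImplicit false

namespace Pool.Agent.Results.MP_3d065d_co.LatticeBoundRootFive

open Pool.Agent.TH219.DL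

/-- Every convex body in space has a lattice packing of density at least `√5/9`; so the minima of
the lattice and of the translative packing density are at least `0.2484`. -/
theorem result :
    (∀ K : Set (Fin 3 → ℝ), Body K → ENNReal.ofReal (√5 / 9) ≤ dL K) ∧
      ENNReal.ofReal 0.2484 ≤ mn dL ∧ ENNReal.ofReal 0.2484 ≤ mn dT := by
  have h0 : (0.2484 : ℝ) ≤ √5 / 9 := by
    have h1 : (0.2484 * 9 : ℝ) ≤ √5 := Real.le_sqrt_of_sq_le (by norm_num)
    linarith
  have h1 : ∀ K : Set (Fin 3 → ℝ), Body K → ENNReal.ofReal 0.2484 ≤ dL K := fun K hK =>
    (ENNReal.ofReal_le_ofReal h0).trans (Pool.Agent.X192.ML.low2 hK)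
  exact ⟨fun K hK => Pool.Agent.X192.ML.low2 hK, le_iInf₂ fun K hK => h1 K hK,
    le_iInf₂ fun K hK => (h1 K hK).trans (dL_le_dT K)⟩

end Pool.Agent.Results.MP_3d065d_co.LatticeBoundRootFive
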