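import Pool.Agent.X192.ML.TS

/-!
# Translates of `K` and `-K`: the packing density is at least `0.4205`

`dL`, `dLs`, `dTs` are the functions `δ_L`, `δ_{L*}`, `δ_{T*}` of the problem and `mn` is the
minimum over all convex bodies (`Body`), see `Pool.Agent.TH219.DL.Defs`.

Proof: after a linear change of coordinates the least ellipsoid containing `K - K` is the unit ball,
and `K` has a vertical chord of length one over a wide shadow (John's decomposition). Let `X` be the
volume of `K` divided by the area of the shadow, where `K` is replaced by the body with the same
chord lengths. If `X` is at least `0.56417` the lattice packing by columns over Fáry's lattice,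
shifted to the deep hole, has density at least `√5/3 * X`. Otherwise a double lattice packing over
Fáry's lattice with columns of period `2 * X / 0.63077` exists: the profile inequality behind it uses
also the part of the body over long chords.
-/

set_option autoImplicit false

namespace Pool.Agent.Results.MP_3d065d_co.TranslatesAndReflections

open Pool.Agent.TH219.DL

/-- Every convex body in space has a lattice packing or a double lattice packing of density at least
`0.4205`; so the minimum of the density of packings by translates of `K` and `-K` is at least
`0.4205`. -/
theorem result :
    (∀ K : Set (Fin 3 → ℝ), Body K →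
      ENNReal.ofReal 0.4205 ≤ dL K ∨ ENNReal.ofReal 0.4205 ≤ dLs K) ∧
    (∀ K : Set (Fin 3 → ℝ), Body K → ENNReal.ofReal 0.4205 ≤ dTs K) ∧
    ENNReal.ofReal 0.4205 ≤ mn dTs :=
  ⟨fun _ hK => Pool.Agent.X192.ML.ts_or hK, fun _ hK => Pool.Agent.X192.ML.ts_low hK,
    le_iInf₂ fun _ hK => Pool.Agent.X192.ML.ts_low hK⟩

end Pool.Agent.Results.MP_3d065d_co.TranslatesAndReflections
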